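import Pool.Agent.Q96.ID.Stm

/-!
# Job ID-ROS: Rosenthal's disjointification
-/

set_option autoImplicit false

open Cardinal Set Filter Topology
open Q96.ID

namespace Q18.ID.ROS

/-- The property wanted of the set `T'`, with constant `c`. -/
def Good {𝕜 : Type} [RCLike 𝕜] {T : Type} (φ : T → (Linf 𝕜 T →L[𝕜] 𝕜)) (T' : Set T) (c : ℝ) :
    Prop :=
  ∀ t ∈ T', ∀ f : Linf 𝕜 T, (∀ s, s ∉ T' ∨ s = t → f s = 0) → ‖φ t f‖ ≤ c * ‖f‖

theorem exists_unimod {𝕜 : Type} [RCLike 𝕜] (z : 𝕜) : ∃ u : 𝕜, ‖u‖ ≤ 1 ∧ u * z = (‖z‖ : 𝕜) := by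
  by_cases hz : z = 0
  · exact ⟨0, by simp, by simp [hz]⟩
  · refine ⟨(‖z‖ : 𝕜) / z, ?_, ?_⟩
    · rw [norm_div, RCLike.norm_ofReal, abs_of_nonneg (norm_nonneg z),
        div_self (norm_ne_zero_iff.2 hz)]
    · rw [div_mul_cancel₀ _ hz]

theorem step {𝕜 : Type} [RCLike 𝕜] {T : Type} [Infinite T] (φ : T → (Linf 𝕜 T →L[𝕜] 𝕜))
    (ε : ℝ) (hε : 0 < ε) (n : ℕ) (ih : ∀ T₁ : Set T, #T₁ = #T → Good φ T₁ (n * ε) →
      ∃ T' : Set T, #T' = #T ∧ Good φ T' ε) (T₁ : Set T) (h1 : #T₁ = #T)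
    (h2 : Good φ T₁ ((n + 1 : ℕ) * ε)) : ∃ T' : Set T, #T' = #T ∧ Good φ T' ε := by
  classical
  have hinf : ℵ₀ ≤ #T := aleph0_le_mk T
  have hprod : #(T × T) = #T₁ := by
    rw [mk_prod, lift_id, mul_eq_self hinf, h1]
  obtain ⟨e⟩ := Cardinal.eq.1 hprod
  -- the pieces
  let S : T → Set T := fun i => Set.range fun j : T => (e (i, j) : T)
  have hSinj : ∀ i, Function.Injective fun j : T => (e (i, j) : T) := by
    intro i j j' h
    have := e.injective (Subtype.ext h)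
    exact (Prod.mk.inj this).2
  have hScard : ∀ i, #(S i) = #T := fun i => mk_range_eq _ (hSinj i)
  have hSsub : ∀ i, S i ⊆ T₁ := by
    rintro i _ ⟨j, rfl⟩
    exact (e (i, j)).2
  have hSdisj : ∀ i i' x, x ∈ S i → x ∈ S i' → i = i' := by
    rintro i i' _ ⟨j, rfl⟩ ⟨j', h⟩
    have := e.injective (Subtype.ext h)
    exact ((Prod.mk.inj this).1).symm
  by_cases hex : ∃ i, Good φ (S i) ε
  · obtain ⟨i, hi⟩ := hex
    exact ⟨S i, hScard i, hi⟩
  push Not at hex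
  have hch : ∀ i, ∃ t ∈ S i, ∃ f : Linf 𝕜 T, (∀ s, s ∉ S i ∨ s = t → f s = 0) ∧
      ε * ‖f‖ < ‖φ t f‖ := by
    intro i
    have := hex i
    unfold Good at this
    push Not at this
    exact this
  choose t ht f hf hφ using hch
  have htinj : Function.Injective t := by
    intro i i' h
    exact hSdisj i i' (t i) (ht i) (h ▸ ht i')
  refine ih (Set.range t) (mk_range_eq _ htinj) ?_
  rintro _ ⟨i, rfl⟩ g hg
  -- `g` and `f i` have disjoint supports
  rcases eq_or_lt_of_le (norm_nonneg g) with hg0 | hg0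
  · have : g = 0 := norm_eq_zero.1 hg0.symm
    rw [this]
    simp
  have hfpos : 0 < ‖f i‖ := by
    rcases eq_or_lt_of_le (norm_nonneg (f i)) with h0 | h0
    · exfalso
      have h0' : f i = 0 := norm_eq_zero.1 h0.symm
      have := hφ i
      rw [h0'] at this
      simp at this
    · exact h0
  obtain ⟨u, hu1, hu2⟩ := exists_unimod (φ (t i) g)
  obtain ⟨v, hv1, hv2⟩ := exists_unimod (φ (t i) (f i))
  set r : ℝ := ‖g‖ / ‖f i‖ with hr
  have hr0 : 0 < r := by positivity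
  let h : Linf 𝕜 T := u • g + ((r : 𝕜) * v) • f i
  have hval : ∀ s, h s = u * g s + (r : 𝕜) * v * f i s := by
    intro s
    show (u • g + ((r : 𝕜) * v) • f i : Linf 𝕜 T) s = _
    rw [lp.coeFn_add, Pi.add_apply, lp.coeFn_smul, lp.coeFn_smul, Pi.smul_apply, Pi.smul_apply,
      smul_eq_mul, smul_eq_mul]
  have hnorm : ‖h‖ ≤ ‖g‖ := by
    refine lp.norm_le_of_forall_le (norm_nonneg g) fun s => ?_
    rw [hval]
    by_cases hs : s ∈ S i
    · have hgs : g s = 0 := by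
        apply hg
        by_cases hst : s = t i
        · exact Or.inr hst
        · left
          rintro ⟨i', rfl⟩
          have : i = i' := hSdisj i i' _ hs (ht i')
          exact hst (by rw [this])
      rw [hgs, mul_zero, zero_add, norm_mul, norm_mul, RCLike.norm_ofReal, abs_of_pos hr0]
      have h3 : ‖f i s‖ ≤ ‖f i‖ := lp.norm_apply_le_norm (by simp) (f i) s
      calc r * ‖v‖ * ‖f i s‖ ≤ r * 1 * ‖f i‖ := by gcongr
        _ = ‖g‖ := by rw [hr]; field_simp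
    · have hfs : f i s = 0 := hf i s (Or.inl hs)
      rw [hfs, mul_zero, add_zero, norm_mul]
      have h3 : ‖g s‖ ≤ ‖g‖ := lp.norm_apply_le_norm (by simp) g s
      calc ‖u‖ * ‖g s‖ ≤ 1 * ‖g‖ := by gcongr
        _ = ‖g‖ := one_mul _
  have hsupp : ∀ s, s ∉ T₁ ∨ s = t i → h s = 0 := by
    intro s hs
    rw [hval]
    have hgs : g s = 0 := by
      apply hg
      rcases hs with hs | hs
      · left
        rintro ⟨i', rfl⟩
        exact hs (hSsub i' (ht i'))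
      · exact Or.inr hs
    have hfs : f i s = 0 := by
      apply hf
      rcases hs with hs | hs
      · exact Or.inl fun h => hs (hSsub i h)
      · exact Or.inr hs
    rw [hgs, hfs, mul_zero, mul_zero, add_zero]
  have hmain := h2 (t i) (hSsub i (ht i)) h hsupp
  have hφh : φ (t i) h = ((‖φ (t i) g‖ + r * ‖φ (t i) (f i)‖ : ℝ) : 𝕜) := by
    show φ (t i) (u • g + ((r : 𝕜) * v) • f i) = _
    rw [map_add, map_smul, map_smul, smul_eq_mul, smul_eq_mul, hu2, mul_assoc, hv2]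
    push_cast
    rfl
  rw [hφh, RCLike.norm_ofReal, abs_of_nonneg (by positivity)] at hmain
  have h4 : r * (ε * ‖f i‖) ≤ r * ‖φ (t i) (f i)‖ := by
    gcongr
    exact (hφ i).le
  have h5 : r * (ε * ‖f i‖) = ε * ‖g‖ := by
    rw [hr]; field_simp
  have h6 : ((n + 1 : ℕ) * ε) * ‖h‖ ≤ ((n + 1 : ℕ) * ε) * ‖g‖ := by gcongr
  push_cast at hmain h6
  nlinarith

theorem all {𝕜 : Type} [RCLike 𝕜] {T : Type} [Infinite T] (φ : T → (Linf 𝕜 T →L[𝕜] 𝕜))
    (ε : ℝ) (hε : 0 < ε) (n : ℕ) : ∀ T₁ : Set T, #T₁ = #T → Good φ T₁ (n * ε) →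
      ∃ T' : Set T, #T' = #T ∧ Good φ T' ε := by
  induction n with
  | zero =>
    intro T₁ h1 h2
    refine ⟨T₁, h1, fun t ht f hf => (h2 t ht f hf).trans ?_⟩
    have : 0 ≤ ε * ‖f‖ := by positivity
    simpa using this
  | succ n ih => exact fun T₁ h1 h2 => step φ ε hε n ih T₁ h1 h2

theorem t_ROS : S_ROS := by
  intro 𝕜 _ T _ φ M hM ε hε
  obtain ⟨n, hn⟩ := exists_nat_ge (M / ε)
  have hn' : M ≤ n * ε := by
    rwa [div_le_iff₀ hε] at hn
  obtain ⟨T', h1, h2⟩ := all φ ε hε n Set.univ (by rw [mk_univ]) (fun t _ f _ =>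
    (hM t f).trans (by gcongr))
  exact ⟨T', h1, h2⟩

end Q18.ID.ROS
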